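import Pool.Agent.Work.MP_ef7f46_tn.Interface

/-!
MP_ef7f46_co, project TN, block PLN (helper82): the planar configuration is a partial linear space.
-/

set_option autoImplicit false
open Classical Finset

noncomputable section

namespace TN

namespace PLN

lemma mem_inc {N M : ℕ} (ℓ : PL N M) (y : Fin N × Fin M) :
    y ∈ incP N M ℓ ↔ y.2.val = ℓ.1.1.val + y.1.val * ℓ.1.2.val := by
  simp [incP]

lemma pl_ext {N M : ℕ} (ℓ ℓ' : PL N M) (h1 : ℓ.1.1.val = ℓ'.1.1.val)
    (h2 : ℓ.1.2.val = ℓ'.1.2.val) : ℓ = ℓ' := by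
  apply Subtype.ext
  exact Prod.ext (Fin.ext h1) (Fin.ext h2)

lemma on_box {N M : ℕ} (ℓ : PL N M) (x : Fin N) : ℓ.1.1.val + x.val * ℓ.1.2.val < M := by
  have h1 := ℓ.2
  have h2 : x.val * ℓ.1.2.val ≤ (N - 1) * ℓ.1.2.val :=
    Nat.mul_le_mul_right _ (by have := x.2; omega)
  omega

lemma line_card {N M : ℕ} (ℓ : PL N M) : (incP N M ℓ).card = N := by
  have h1 : incP N M ℓ = univ.image
      (fun x : Fin N => ((x, ⟨ℓ.1.1.val + x.val * ℓ.1.2.val, on_box ℓ x⟩) : Fin N × Fin M)) := by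
    ext y
    rw [mem_inc, mem_image]
    constructor
    · intro h
      refine ⟨y.1, mem_univ _, ?_⟩
      apply Prod.ext
      · rfl
      · apply Fin.ext
        simp only
        exact h.symm
    · rintro ⟨x, _, rfl⟩
      rfl
  rw [h1, card_image_of_injective]
  · simp
  · intro x x' h
    exact (Prod.ext_iff.mp h).1

lemma deg_le {N M : ℕ} (y : Fin N × Fin M) :
    (univ.filter (fun ℓ => y ∈ incP N M ℓ)).card ≤ N := by
  calc (univ.filter (fun ℓ => y ∈ incP N M ℓ)).card
      ≤ (univ : Finset (Fin N)).card := by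
        apply card_le_card_of_injOn (fun ℓ => ℓ.1.2) (fun _ _ => mem_coe.mpr (mem_univ _))
        intro ℓ hℓ ℓ' hℓ' h
        simp only [coe_filter, mem_univ, true_and, Set.mem_ofPred_eq, mem_inc] at hℓ hℓ'
        have h2 : ℓ.1.2.val = ℓ'.1.2.val := congrArg Fin.val h
        apply pl_ext _ _ _ h2
        rw [h2] at hℓ
        omega
    _ = N := by simp

lemma codeg_le {N M : ℕ} (y y' : Fin N × Fin M) (hne : y ≠ y') :
    (univ.filter (fun ℓ => y ∈ incP N M ℓ ∧ y' ∈ incP N M ℓ)).card ≤ 1 := by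
  rw [card_le_one]
  intro ℓ hℓ ℓ' hℓ'
  simp only [mem_filter, mem_univ, true_and, mem_inc] at hℓ hℓ'
  obtain ⟨h1, h2⟩ := hℓ
  obtain ⟨h3, h4⟩ := hℓ'
  have hx : y.1.val ≠ y'.1.val := by
    intro h
    apply hne
    apply Prod.ext
    · exact Fin.ext h
    · apply Fin.ext
      rw [h1, h2, h]
  have hv : ℓ.1.2.val = ℓ'.1.2.val := by
    have e1 : (y.2.val : ℤ) = ℓ.1.1.val + y.1.val * ℓ.1.2.val := by exact_mod_cast h1
    have e2 : (y'.2.val : ℤ) = ℓ.1.1.val + y'.1.val * ℓ.1.2.val := by exact_mod_cast h2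
    have e3 : (y.2.val : ℤ) = ℓ'.1.1.val + y.1.val * ℓ'.1.2.val := by exact_mod_cast h3
    have e4 : (y'.2.val : ℤ) = ℓ'.1.1.val + y'.1.val * ℓ'.1.2.val := by exact_mod_cast h4
    have e5 : ((y.1.val : ℤ) - y'.1.val) * ((ℓ.1.2.val : ℤ) - ℓ'.1.2.val) = 0 := by
      linear_combination e3 - e1 - (e4 - e2)
    rcases mul_eq_zero.mp e5 with h | h
    · exfalso; apply hx; omega
    · omega
  apply pl_ext _ _ _ hv
  rw [hv] at h1
  omega

lemma many {N M : ℕ} (hN : 0 < N) (hM : 100 * N * N ≤ M) :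
    99 / 100 * ((N : ℝ) * M) ≤ (Fintype.card (PL N M) : ℝ) := by
  have h1 : (M - N * N) * N ≤ Fintype.card (PL N M) := by
    have h2 : Fintype.card (Fin (M - N * N) × Fin N) = (M - N * N) * N := by simp
    rw [← h2]
    have h3 : ∀ p : Fin (M - N * N) × Fin N, p.1.val + (N - 1) * p.2.val < M := by
      intro p
      have h4 : (N - 1) * p.2.val ≤ N * N := Nat.mul_le_mul (Nat.sub_le _ _) p.2.2.le
      have h5 := p.1.2
      omega
    apply Fintype.card_le_of_injective
      (fun p : Fin (M - N * N) × Fin N =>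
        (⟨(⟨p.1.val, by have := p.1.2; omega⟩, p.2), h3 p⟩ : PL N M))
    intro p p' h
    have h5 := congrArg Subtype.val h
    have h6 := (Prod.ext_iff.mp h5).1
    have h7 := (Prod.ext_iff.mp h5).2
    apply Prod.ext
    · apply Fin.ext
      have h8 := congrArg Fin.val h6
      exact h8
    · exact h7
  have h2 : ((M - N * N : ℕ) : ℝ) * N ≤ (Fintype.card (PL N M) : ℝ) := by exact_mod_cast h1
  refine le_trans ?_ h2
  have h3 : N * N ≤ M := by nlinarith
  rw [Nat.cast_sub h3]
  have h4 : (100 : ℝ) * N * N ≤ M := by exact_mod_cast hM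
  have h5 : (0 : ℝ) < N := by exact_mod_cast hN
  push_cast
  nlinarith

end PLN

theorem pln_ok : Stmt_PLN := by
  intro N M hN hM
  exact
    { line := fun ℓ => PLN.line_card ℓ
      deg := fun y => by convert PLN.deg_le y
      codeg := fun y y' h => by convert PLN.codeg_le y y' h
      cardQ := by simp
      Npos := hN
      Mpos := by
        have : 0 < 100 * N * N := by positivity
        omega
      many := PLN.many hN hM }

end TN
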