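import Pool.Agent.Work.MP_ef7f46_tn.Interface

/-!
MP_ef7f46_co, project TN, block TYP (helper82): poor lines are few for most sequences.
-/

set_option autoImplicit false
open Classical Finset

noncomputable section

namespace TN

namespace TYP

lemma gen_sum {Q P : Type} [Fintype Q] [Fintype P] (A : Finset Q) (a : ℝ) :
    ∑ z : P → Q, a ^ (univ.filter (fun p => z p ∈ A)).card =
      (∑ y : Q, if y ∈ A then a else 1) ^ Fintype.card P := by
  have h1 := Finset.prod_univ_sum (fun _ : P => (univ : Finset Q))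
    (fun _ y => if y ∈ A then a else (1 : ℝ))
  rw [Fintype.piFinset_univ] at h1
  rw [Finset.prod_const, Finset.card_univ] at h1
  rw [h1]
  apply Finset.sum_congr rfl
  intro z _
  rw [← Finset.prod_filter, Finset.prod_const]

lemma single_sum {Q : Type} [Fintype Q] (A : Finset Q) :
    (∑ y : Q, if y ∈ A then (1 / 8 : ℝ) else 1) = (Fintype.card Q : ℝ) - 7 / 8 * A.card := by
  have h1 : ∀ y : Q, (if y ∈ A then (1 / 8 : ℝ) else 1) = 1 - (if y ∈ A then (7 / 8 : ℝ) else 0) := by
    intro y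
    split_ifs <;> norm_num
  rw [Finset.sum_congr rfl (fun y _ => h1 y), Finset.sum_sub_distrib, ← Finset.sum_filter]
  simp only [Finset.sum_const, Finset.card_univ, nsmul_eq_mul, mul_one, Finset.filter_mem_eq_inter,
    Finset.univ_inter]
  ring

lemma log8 : Real.log 8 ≤ 2.08 := by
  have h1 : Real.log 8 = 3 * Real.log 2 := by
    rw [show (8 : ℝ) = 2 ^ 3 by norm_num, Real.log_pow]
    norm_num
  have h2 := Real.log_two_lt_d9
  rw [h1]
  linarith

lemma one_line {Q Λ : Type} [Fintype Q] [Fintype Λ] (X : Ctx Q Λ) (hX : Reg X) (ℓ : Λ) :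
    ((univ.filter (fun z : Pos X → Q => (pz X z ℓ : ℝ) ≤ X.lam / 8)).card : ℝ) ≤
      Real.exp (-(3 / 5 * (X.lam : ℝ))) * qq X ^ (X.lam * X.M) := by
  have hN : (0 : ℝ) < X.N := by exact_mod_cast hX.lin.Npos
  have hM : (0 : ℝ) < X.M := by exact_mod_cast hX.lin.Mpos
  have hM1 : (1 : ℝ) ≤ X.M := by exact_mod_cast hX.lin.Mpos
  have hqq : 0 < qq X := mul_pos hN hM
  have hcP : Fintype.card (Pos X) = X.lam * X.M := by
    rw [← hX.mb]; simp [Pos]
  have hcQ : (Fintype.card Q : ℝ) = qq X := by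
    rw [hX.lin.cardQ]; simp [qq]
  have hsum := gen_sum (P := Pos X) (X.inc ℓ) (1 / 8)
  rw [single_sum, hX.lin.line ℓ, hcP, hcQ] at hsum
  have hlam0 : (0 : ℝ) ≤ X.lam := by positivity
  -- the upper bound
  have hup : (qq X - 7 / 8 * (X.N : ℝ)) ^ (X.lam * X.M) ≤
      qq X ^ (X.lam * X.M) * Real.exp (-(7 / 8 * (X.lam : ℝ))) := by
    have h1 : qq X - 7 / 8 * (X.N : ℝ) = qq X * (1 - 7 / (8 * X.M)) := by
      simp only [qq]; field_simp
    have h2 : 0 ≤ 1 - 7 / (8 * (X.M : ℝ)) := by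
      have h3 : 7 / (8 * (X.M : ℝ)) ≤ 1 := by
        rw [div_le_one (by positivity)]; linarith
      linarith
    have h3 : 1 - 7 / (8 * (X.M : ℝ)) ≤ Real.exp (-(7 / (8 * (X.M : ℝ)))) := by
      have := Real.add_one_le_exp (-(7 / (8 * (X.M : ℝ))))
      linarith
    rw [h1, mul_pow]
    apply mul_le_mul_of_nonneg_left _ (by positivity)
    calc (1 - 7 / (8 * (X.M : ℝ))) ^ (X.lam * X.M)
        ≤ (Real.exp (-(7 / (8 * (X.M : ℝ))))) ^ (X.lam * X.M) := pow_le_pow_left₀ h2 h3 _
      _ = Real.exp (-(7 / 8 * (X.lam : ℝ))) := by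
          rw [← Real.exp_nat_mul]
          congr 1
          push_cast
          field_simp
  -- the lower bound
  have hlow : ((univ.filter (fun z : Pos X → Q => (pz X z ℓ : ℝ) ≤ X.lam / 8)).card : ℝ) *
      Real.exp (-(X.lam / 8 * Real.log 8)) ≤
      ∑ z : Pos X → Q, (1 / 8 : ℝ) ^ (univ.filter (fun p => z p ∈ X.inc ℓ)).card := by
    calc ((univ.filter (fun z : Pos X → Q => (pz X z ℓ : ℝ) ≤ X.lam / 8)).card : ℝ) *
          Real.exp (-(X.lam / 8 * Real.log 8))
        = ∑ _z ∈ univ.filter (fun z : Pos X → Q => (pz X z ℓ : ℝ) ≤ X.lam / 8),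
            Real.exp (-(X.lam / 8 * Real.log 8)) := by
          rw [Finset.sum_const, nsmul_eq_mul]
      _ ≤ ∑ z ∈ univ.filter (fun z : Pos X → Q => (pz X z ℓ : ℝ) ≤ X.lam / 8),
            (1 / 8 : ℝ) ^ (univ.filter (fun p => z p ∈ X.inc ℓ)).card := by
          apply Finset.sum_le_sum
          intro z hz
          rw [mem_filter] at hz
          have h1 : (pz X z ℓ : ℝ) ≤ X.lam / 8 := hz.2
          have h2 : (1 / 8 : ℝ) ^ (univ.filter (fun p => z p ∈ X.inc ℓ)).card =
              Real.exp (-((pz X z ℓ : ℝ) * Real.log 8)) := by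
            have h3 : (1 / 8 : ℝ) = Real.exp (-Real.log 8) := by
              rw [Real.exp_neg, Real.exp_log (by norm_num)]; norm_num
            rw [h3, ← Real.exp_nat_mul]
            congr 1
            simp only [pz]
            ring
          rw [h2]
          apply Real.exp_le_exp.mpr
          have h3 : 0 ≤ Real.log 8 := Real.log_nonneg (by norm_num)
          have := mul_le_mul_of_nonneg_right h1 h3
          linarith
      _ ≤ _ := by
          apply Finset.sum_le_sum_of_subset_of_nonneg (Finset.filter_subset _ _)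
          intro z _ _
          positivity
  have hsum2 : ∑ z : Pos X → Q, (1 / 8 : ℝ) ^ (univ.filter (fun p => z p ∈ X.inc ℓ)).card =
      (qq X - 7 / 8 * (X.N : ℝ)) ^ (X.lam * X.M) := by
    refine Eq.trans ?_ hsum
    refine Finset.sum_congr ?_ fun z _ => ?_
    · ext z
      simp only [Finset.mem_univ]
    · refine congrArg (fun n : ℕ => (1 / 8 : ℝ) ^ n) (congrArg Finset.card ?_)
      ext p
      simp only [Finset.mem_filter, Finset.mem_univ, true_and]
  rw [hsum2] at hlow
  have h1 := hlow.trans hup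
  have h2 : ((univ.filter (fun z : Pos X → Q => (pz X z ℓ : ℝ) ≤ X.lam / 8)).card : ℝ) ≤
      qq X ^ (X.lam * X.M) * Real.exp (-(7 / 8 * (X.lam : ℝ))) *
        Real.exp (X.lam / 8 * Real.log 8) := by
    rw [Real.exp_neg (X.lam / 8 * Real.log 8), ← div_eq_mul_inv, div_le_iff₀ (Real.exp_pos _)] at h1
    exact h1
  refine h2.trans ?_
  rw [mul_assoc, ← Real.exp_add, mul_comm]
  apply mul_le_mul_of_nonneg_right _ (by positivity)
  apply Real.exp_le_exp.mpr
  have h3 := mul_le_mul_of_nonneg_left log8 (by positivity : (0 : ℝ) ≤ X.lam / 8)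
  linarith

end TYP

theorem typ_ok (h1 : Stmt_LCARD) : Stmt_TYP := by
  intro Q Λ _ _ X hX
  have hN : (0 : ℝ) < X.N := by exact_mod_cast hX.lin.Npos
  have hM : (0 : ℝ) < X.M := by exact_mod_cast hX.lin.Mpos
  have hqq : 0 < qq X := mul_pos hN hM
  have hL : (Fintype.card Λ : ℝ) ≤ qq X := (h1 Q Λ X.inc X.N X.M hX.lin).1
  obtain ⟨e, he⟩ : ∃ e : ℝ, e = Real.exp (-(3 / 5 * (X.lam : ℝ))) := ⟨_, rfl⟩
  have he0 : 0 < e := by rw [he]; exact Real.exp_pos _
  obtain ⟨A, hA⟩ : ∃ A : Finset (Pos X → Q), A = univ.filter (fun z : Pos X → Q =>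
      ¬ ((univ.filter (fun ℓ => (pz X z ℓ : ℝ) ≤ X.lam / 8)).card : ℝ)
        ≤ 10 * Real.exp (-(3 / 5 * (X.lam : ℝ))) * qq X) := ⟨_, rfl⟩
  rw [← hA]
  have h2 : (A.card : ℝ) * (10 * e * qq X) ≤ qq X * (e * qq X ^ (X.lam * X.M)) := by
    calc (A.card : ℝ) * (10 * e * qq X) = ∑ _z ∈ A, (10 * e * qq X) := by
          rw [Finset.sum_const, nsmul_eq_mul]
      _ ≤ ∑ z ∈ A, ((univ.filter (fun ℓ => (pz X z ℓ : ℝ) ≤ X.lam / 8)).card : ℝ) := by
          apply Finset.sum_le_sum
          intro z hz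
          rw [hA, mem_filter, not_le, ← he] at hz
          exact hz.2.le
      _ ≤ ∑ z : Pos X → Q, ((univ.filter (fun ℓ => (pz X z ℓ : ℝ) ≤ X.lam / 8)).card : ℝ) := by
          apply Finset.sum_le_sum_of_subset_of_nonneg (Finset.subset_univ _)
          intro z _ _
          positivity
      _ = ∑ ℓ : Λ, ((univ.filter (fun z : Pos X → Q => (pz X z ℓ : ℝ) ≤ X.lam / 8)).card : ℝ) := by
          simp only [Finset.card_filter]
          push_cast
          exact Finset.sum_comm
      _ ≤ ∑ _ℓ : Λ, e * qq X ^ (X.lam * X.M) := by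
          apply Finset.sum_le_sum
          intro ℓ _
          rw [he]
          exact TYP.one_line X hX ℓ
      _ = (Fintype.card Λ : ℝ) * (e * qq X ^ (X.lam * X.M)) := by
          rw [Finset.sum_const, nsmul_eq_mul, Finset.card_univ]
      _ ≤ qq X * (e * qq X ^ (X.lam * X.M)) :=
          mul_le_mul_of_nonneg_right hL (by positivity)
  have h3 : (0 : ℝ) < e * qq X := by positivity
  have h4 : (e * qq X) * ((A.card : ℝ) * 10) ≤ (e * qq X) * (qq X ^ (X.lam * X.M)) := by
    linarith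
  have h5 := le_of_mul_le_mul_left h4 h3
  linarith

end TN
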